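import Pool.Agent.H625R3.SD1

set_option autoImplicit false

/-!
# Steiner systems with the symmetric difference property: a necessary condition

Let `S(t, k, n)` be a nontrivial system with the symmetric difference property and `s = t - k / 2`.
If `s` is a prime power and `4 t ≤ 3 k + 2`, then `s` does not divide `k / 2`.
-/

open Pool.Agent.H625R3.SD

namespace Pool.Agent.Results.MP_3e18ff_co.PrimePowerExcess

/-- Let `F` be the set of blocks of a nontrivial Steiner system `S(t, k, n)` (`t < k < n`) with `k`
even and `k < 2 t`, and suppose that it has the symmetric difference property.  If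
`s = t - k / 2` is a prime power and `4 t ≤ 3 k + 2`, then `s` does not divide `k / 2`. -/
theorem result : ∀ (t k n : ℕ) (F : Finset (Finset (Fin n))), Even k → k < 2 * t → t < k → k < n →
    IsSteiner t k n F → HasSDP k n F → 4 * t ≤ 3 * k + 2 → IsPrimePow (t - k / 2) →
      ¬ (t - k / 2) ∣ k / 2 := by
  intro t k n F hk hkt htk hkn hF hS h4 hpp
  obtain ⟨m, rfl⟩ := hk
  have e1 : (m + m) / 2 = m := by omega
  rw [e1] at hpp ⊢
  obtain ⟨s, rfl⟩ : ∃ s, t = m + s := ⟨t - m, by omega⟩
  have e2 : m + s - m = s := by omega
  rw [e2] at hpp ⊢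
  have e3 : m + m = 2 * m := by ring
  rw [e3] at hF hS
  obtain ⟨p, a, hp, ha, hs⟩ := hpp
  exact main hF hS (by omega) hp.nat_prime (by omega) hs.symm (by omega)

end Pool.Agent.Results.MP_3e18ff_co.PrimePowerExcess
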